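import Pool.Agent.H13.SR.Defs

/-! # Project SR, module G: eigenvalues of matrix representations of finite groups -/

set_option autoImplicit false

namespace Pool.Agent.H13.SR

open scoped ComplexConjugate ComplexOrder
open Filter Topology

set_option linter.unusedSectionVars false
set_option linter.style.haveILetI false

theorem eigenvector_of_mem {n : ℕ} {A : Matrix (Fin n) (Fin n) ℂ} {a : ℂ} (ha : a ∈ eig A) :
    ∃ v : Fin n → ℂ, v ≠ 0 ∧ A.mulVec v = a • v := by
  have h1 : A.charpoly.eval a = 0 := (Polynomial.mem_roots'.1 ha).2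
  rw [Matrix.eval_charpoly] at h1
  obtain ⟨v, hv, h⟩ := Matrix.exists_mulVec_eq_zero_iff.2 h1
  refine ⟨v, hv, ?_⟩
  rw [Matrix.sub_mulVec, sub_eq_zero] at h
  rw [← h]
  ext i
  simp [Matrix.scalar_apply, Matrix.mulVec_diagonal]

theorem pow_eigenvector {n : ℕ} {A : Matrix (Fin n) (Fin n) ℂ} {a : ℂ} {v : Fin n → ℂ}
    (h : A.mulVec v = a • v) (k : ℕ) : (A ^ k).mulVec v = a ^ k • v := by
  induction k with
  | zero => simp
  | succ k ih => rw [pow_succ, ← Matrix.mulVec_mulVec, h, Matrix.mulVec_smul, ih, smul_smul,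
      pow_succ, mul_comm]

section

variable {G : Type} [Group G] [Finite G] {n : ℕ} (ρ : G →* Matrix (Fin n) (Fin n) ℂ)

/-- G1 -/
theorem eig_card (x : G) : Multiset.card (eig (ρ x)) = n := by
  unfold eig
  rw [Polynomial.splits_iff_card_roots.1 (IsAlgClosed.splits _),
    Matrix.charpoly_natDegree_eq_dim, Fintype.card_fin]

theorem rho_pow_card (x : G) : ρ x ^ Nat.card G = 1 := by
  rw [← map_pow, pow_card_eq_one', map_one]

/-- G2 -/
theorem eig_norm (x : G) : ∀ a ∈ eig (ρ x), ‖a‖ = 1 := by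
  intro a ha
  obtain ⟨v, hv, h⟩ := eigenvector_of_mem ha
  have h1 := pow_eigenvector h (Nat.card G)
  rw [rho_pow_card, Matrix.one_mulVec] at h1
  have h2 : a ^ Nat.card G = 1 := by
    by_contra hne
    apply hv
    have h3 : (a ^ Nat.card G - 1) • v = 0 := by
      rw [sub_smul, one_smul, ← h1, sub_self]
    exact (smul_eq_zero.1 h3).resolve_left (sub_ne_zero.2 hne)
  exact Complex.norm_eq_one_of_pow_eq_one h2 Nat.card_pos.ne'

theorem scalar_norm (hn : 0 < n) {m : G} {c : ℂ} (h : ρ m = c • (1 : Matrix (Fin n) (Fin n) ℂ)) :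
    ‖c‖ = 1 := by
  have h1 := rho_pow_card ρ m
  rw [h, smul_pow, one_pow] at h1
  have h2 := congrFun (congrFun h1 ⟨0, hn⟩) ⟨0, hn⟩
  simp only [Matrix.smul_apply, Matrix.one_apply_eq, smul_eq_mul, mul_one] at h2
  exact Complex.norm_eq_one_of_pow_eq_one h2 Nat.card_pos.ne'

/-- the hermitian form invariant under the group -/
theorem trace_inv (y : G) : (ρ y⁻¹).trace = conj (ρ y).trace := by
  classical
  haveI : Fintype G := Fintype.ofFinite G
  set H : Matrix (Fin n) (Fin n) ℂ := ∑ g : G, (ρ g).conjTranspose * ρ g with hH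
  have hpos : H.PosDef := by
    rw [hH, ← Finset.add_sum_erase _ _ (Finset.mem_univ (1 : G))]
    refine Matrix.PosDef.add_posSemidef ?_ ?_
    · rw [map_one, Matrix.conjTranspose_one, one_mul]
      exact Matrix.PosDef.one
    · exact Matrix.posSemidef_sum _ fun g _ => Matrix.posSemidef_conjTranspose_mul_self _
  have hinv : (ρ y).conjTranspose * H * ρ y = H := by
    rw [hH, Finset.mul_sum, Finset.sum_mul]
    refine Fintype.sum_equiv (Equiv.mulRight y) _ _ fun g => ?_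
    rw [Equiv.coe_mulRight, map_mul, Matrix.conjTranspose_mul]
    simp only [Matrix.mul_assoc]
  have h1 : (ρ y).conjTranspose * H = H * ρ y⁻¹ := by
    calc (ρ y).conjTranspose * H = (ρ y).conjTranspose * H * (ρ y * ρ y⁻¹) := by
          rw [← map_mul, mul_inv_cancel, map_one, mul_one]
      _ = (ρ y).conjTranspose * H * ρ y * ρ y⁻¹ := by simp only [Matrix.mul_assoc]
      _ = H * ρ y⁻¹ := by rw [hinv]
  have hu : IsUnit H.det := (Matrix.isUnit_iff_isUnit_det _).1 hpos.isUnit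
  have h2 : (ρ y).conjTranspose = H * ρ y⁻¹ * H⁻¹ := by
    rw [← h1, Matrix.mul_assoc, Matrix.mul_nonsing_inv _ hu, Matrix.mul_one]
  have h3 := congrArg Matrix.trace h2
  rw [Matrix.trace_conjTranspose, Matrix.trace_mul_comm, ← Matrix.mul_assoc,
    Matrix.nonsing_inv_mul _ hu, Matrix.one_mul] at h3
  rw [← h3]
  rfl

theorem eig_sum_eq_trace (x : G) : (eig (ρ x)).sum = (ρ x).trace := by
  unfold eig
  rw [Matrix.trace_eq_sum_roots_charpoly]

theorem schur_sum (N : Subgroup G) [Fintype N]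
    (hirr : ∀ B : Matrix (Fin n) (Fin n) ℂ, (∀ m ∈ N, B * ρ m = ρ m * B) →
      ∃ c : ℂ, B = c • (1 : Matrix (Fin n) (Fin n) ℂ)) (hn : 0 < n)
    (C : Matrix (Fin n) (Fin n) ℂ) :
    ∑ m : N, ρ m * C * ρ (m : G)⁻¹ =
      ((Fintype.card N : ℂ) / n * C.trace) • (1 : Matrix (Fin n) (Fin n) ℂ) := by
  obtain ⟨c, hc⟩ := hirr (∑ m : N, ρ m * C * ρ (m : G)⁻¹) (by
    intro k hk
    rw [Finset.sum_mul, Finset.mul_sum]
    refine (Fintype.sum_equiv (Equiv.mulLeft (⟨k, hk⟩ : N)) _ _ fun m => ?_).symm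
    rw [Equiv.coe_mulLeft]
    simp only [Subgroup.coe_mul, map_mul, mul_inv_rev, Matrix.mul_assoc]
    rw [← map_mul ρ k⁻¹ k, inv_mul_cancel, map_one, Matrix.mul_one])
  have ht := congrArg Matrix.trace hc
  rw [Matrix.trace_sum, Matrix.trace_smul, Matrix.trace_one, Fintype.card_fin] at ht
  have ht2 : ∀ m : N, (ρ m * C * ρ (m : G)⁻¹).trace = C.trace := by
    intro m
    rw [Matrix.trace_mul_comm, ← Matrix.mul_assoc, ← map_mul, inv_mul_cancel, map_one,
      Matrix.one_mul]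
  simp only [ht2, Finset.sum_const, Finset.card_univ, nsmul_eq_mul, smul_eq_mul] at ht
  rw [hc]
  congr 1
  have hn' : (n : ℂ) ≠ 0 := by exact_mod_cast hn.ne'
  field_simp
  rw [ht]

theorem sum_norm_sq (N : Subgroup G) [Fintype N] (hn : 0 < n)
    (hirr : ∀ B : Matrix (Fin n) (Fin n) ℂ, (∀ m ∈ N, B * ρ m = ρ m * B) →
      ∃ c : ℂ, B = c • (1 : Matrix (Fin n) (Fin n) ℂ)) (x : G) :
    ∑ m : N, (ρ (x * m)).trace * (ρ (x * m)⁻¹).trace = (Fintype.card N : ℂ) := by
  have hn' : (n : ℂ) ≠ 0 := by exact_mod_cast hn.ne'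
  have key : ∀ i j k l : Fin n, ∑ m : N, ρ m j i * ρ (m : G)⁻¹ k l =
      if i = k ∧ j = l then (Fintype.card N : ℂ) / n else 0 := by
    intro i j k l
    have h := congrFun (congrFun (schur_sum ρ N hirr hn (Matrix.single i k 1)) j) l
    rw [Matrix.sum_apply] at h
    have h1 : ∀ m : N, (ρ m * Matrix.single i k 1 * ρ (m : G)⁻¹ :
        Matrix (Fin n) (Fin n) ℂ) j l = ρ m j i * ρ (m : G)⁻¹ k l := by
      intro m
      rw [Matrix.mul_apply, Finset.sum_eq_single k]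
      · rw [Matrix.mul_single_apply_same, mul_one]
      · intro b _ hb
        rw [Matrix.mul_single_apply_of_ne _ _ _ _ _ hb, zero_mul]
      · intro hk; exact absurd (Finset.mem_univ _) hk
    simp only [h1] at h
    rw [h]
    by_cases hik : i = k
    · subst hik
      by_cases hjl : j = l
      · subst hjl
        simp [Matrix.trace_single_eq_same]
      · simp [hjl, Matrix.one_apply_ne hjl]
    · simp [hik, Matrix.trace_single_eq_of_ne _ _ _ hik]
  have e1 : ∀ m : N, (ρ (x * m)).trace * (ρ (x * m)⁻¹).trace =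
      ∑ i, ∑ j, ∑ k, ∑ l, (ρ x i j * ρ x⁻¹ l k) * (ρ m j i * ρ (m : G)⁻¹ k l) := by
    intro m
    have tA : ∀ A B : Matrix (Fin n) (Fin n) ℂ, (A * B).trace = ∑ i, ∑ j, A i j * B j i :=
      fun A B => by simp only [Matrix.trace, Matrix.diag_apply, Matrix.mul_apply]
    rw [mul_inv_rev, map_mul, map_mul, tA, tA, Finset.sum_mul]
    refine Finset.sum_congr rfl fun i _ => ?_
    rw [Finset.sum_mul]
    refine Finset.sum_congr rfl fun j _ => ?_
    rw [Finset.mul_sum]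
    refine Finset.sum_congr rfl fun k _ => ?_
    rw [Finset.mul_sum]
    refine Finset.sum_congr rfl fun l _ => ?_
    ring
  simp only [e1]
  rw [Finset.sum_comm]
  have e2 : ∀ i, ∑ m : N, ∑ j, ∑ k, ∑ l, (ρ x i j * ρ x⁻¹ l k) * (ρ m j i * ρ (m : G)⁻¹ k l) =
      ∑ j, ρ x i j * ρ x⁻¹ j i * ((Fintype.card N : ℂ) / n) := by
    intro i
    rw [Finset.sum_comm]
    refine Finset.sum_congr rfl fun j _ => ?_
    rw [Finset.sum_comm, Finset.sum_eq_single i]
    · rw [Finset.sum_comm, Finset.sum_eq_single j]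
      · rw [← Finset.mul_sum, key, if_pos ⟨rfl, rfl⟩]
      · intro l _ hl
        rw [← Finset.mul_sum, key, if_neg (fun h => hl h.2.symm), mul_zero]
      · intro hj; exact absurd (Finset.mem_univ _) hj
    · intro k _ hk
      rw [Finset.sum_comm]
      refine Finset.sum_eq_zero fun l _ => ?_
      rw [← Finset.mul_sum, key, if_neg (fun h => hk h.1.symm), mul_zero]
    · intro hi; exact absurd (Finset.mem_univ _) hi
  simp only [e2]
  have e3 : ∑ i, ∑ j, ρ x i j * ρ x⁻¹ j i = (n : ℂ) := by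
    have : (ρ x * ρ x⁻¹).trace = (n : ℂ) := by
      rw [← map_mul, mul_inv_cancel, map_one, Matrix.trace_one, Fintype.card_fin]
    rw [← this, Matrix.trace]
    simp only [Matrix.diag_apply, Matrix.mul_apply]
  have e4 : ∑ i, ∑ j, ρ x i j * ρ x⁻¹ j i * ((Fintype.card N : ℂ) / n) =
      (∑ i, ∑ j, ρ x i j * ρ x⁻¹ j i) * ((Fintype.card N : ℂ) / n) := by
    rw [Finset.sum_mul]
    refine Finset.sum_congr rfl fun i _ => ?_
    rw [Finset.sum_mul]
  rw [e4, e3]
  field_simp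

/-- the elements of `N` acting as scalars -/
def scalarSub (N : Subgroup G) (hn : 0 < n) : Subgroup N where
  carrier := {m | ∃ c : ℂ, ρ (m : G) = c • (1 : Matrix (Fin n) (Fin n) ℂ)}
  mul_mem' := by
    rintro a b ⟨c, hc⟩ ⟨d, hd⟩
    exact ⟨c * d, by rw [Subgroup.coe_mul, map_mul, hc, hd, smul_mul_smul_comm, one_mul]⟩
  one_mem' := ⟨1, by simp⟩
  inv_mem' := by
    rintro a ⟨c, hc⟩
    have h0 : c ≠ 0 := by
      intro h
      have := scalar_norm ρ hn hc
      rw [h, norm_zero] at this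
      exact zero_ne_one this
    refine ⟨c⁻¹, ?_⟩
    have h1 : ρ (a : G) * ρ ((a : G)⁻¹) = 1 := by rw [← map_mul, mul_inv_cancel, map_one]
    rw [hc, smul_mul_assoc, one_mul] at h1
    rw [Subgroup.coe_inv, ← h1, smul_smul, inv_mul_cancel₀ h0, one_smul]

/-- G3 -/
theorem eig_sum_norm (N : Subgroup G) (hN : N.Normal) (hn : 0 < n)
    (hirr : ∀ B : Matrix (Fin n) (Fin n) ℂ, (∀ m ∈ N, B * ρ m = ρ m * B) →
      ∃ c : ℂ, B = c • (1 : Matrix (Fin n) (Fin n) ℂ)) (x : G)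
    (hfree : ∀ m ∈ N, (∃ c : ℂ, ρ (m * x * m⁻¹) = c • ρ x) →
      ∃ c : ℂ, ρ m = c • (1 : Matrix (Fin n) (Fin n) ℂ)) :
    ‖(eig (ρ x)).sum‖ = 1 := by
  classical
  haveI : Fintype G := Fintype.ofFinite G
  haveI : Fintype N := Fintype.ofFinite N
  rw [eig_sum_eq_trace]
  set Z := scalarSub ρ N hn with hZ
  let f : N → N := fun m => ⟨x⁻¹ * m * x * (m : G)⁻¹, by
    have := hN.conj_mem m m.2 x⁻¹
    rw [inv_inv] at this
    exact N.mul_mem this (N.inv_mem m.2)⟩
  have hf : ∀ m : N, x * (f m : G) = m * x * (m : G)⁻¹ := by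
    intro m
    simp only [f]
    group
  have hrel : ∀ a b : N, a⁻¹ * b ∈ Z → (f a)⁻¹ * f b ∈ Z := by
    rintro a b ⟨c, hc⟩
    refine ⟨1, ?_⟩
    have h1 : ρ (x * f b) = ρ (x * f a) := by
      have hb : (b : G) = a * ((a⁻¹ * b : N) : G) := by simp
      have hc' : ρ ((a⁻¹ * b : N) : G)⁻¹ * ρ ((a⁻¹ * b : N) : G) = 1 := by
        rw [← map_mul, inv_mul_cancel, map_one]
      rw [hf, hf, hb]
      set z := ((a⁻¹ * b : N) : G)
      rw [mul_inv_rev]
      calc ρ (a * z * x * (z⁻¹ * (a : G)⁻¹))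
          = ρ a * ρ z * ρ x * (ρ z⁻¹ * ρ (a : G)⁻¹) := by simp only [map_mul]
        _ = ρ a * (ρ z * ρ x) * (ρ z⁻¹ * ρ (a : G)⁻¹) := by simp only [Matrix.mul_assoc]
        _ = ρ a * (ρ x * ρ z) * (ρ z⁻¹ * ρ (a : G)⁻¹) := by
            rw [hc, smul_mul_assoc, mul_smul_comm (c) (ρ x), one_mul, mul_one]
        _ = ρ a * ρ x * (ρ z * ρ z⁻¹) * ρ (a : G)⁻¹ := by simp only [Matrix.mul_assoc]
        _ = ρ (a * x * (a : G)⁻¹) := by
            rw [← map_mul ρ z, mul_inv_cancel, map_one, mul_one, map_mul, map_mul]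
    have h2 : (((f a)⁻¹ * f b : N) : G) = (x * f a)⁻¹ * (x * f b) := by
      simp
    rw [h2, map_mul, h1, ← map_mul, inv_mul_cancel, map_one, one_smul]
  have hinj : ∀ a b : N, (f a)⁻¹ * f b ∈ Z → a⁻¹ * b ∈ Z := by
    rintro a b ⟨c, hc⟩
    have := hfree ((a⁻¹ * b : N) : G) (a⁻¹ * b : N).2 ⟨c, ?_⟩
    · exact this
    · set w := (((f a)⁻¹ * f b : N) : G) with hw
      have h2 : w = (x * f a)⁻¹ * (x * f b) := by
        simp [hw]
      rw [hf, hf] at h2
      have h3 : ((a⁻¹ * b : N) : G) * x * ((a⁻¹ * b : N) : G)⁻¹ = x * ((a : G)⁻¹ * w * a) := by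
        rw [h2, Subgroup.coe_mul, Subgroup.coe_inv]
        group
      rw [h3, map_mul, map_mul, map_mul, hc, mul_smul_comm, mul_one, smul_mul_assoc,
        ← map_mul, inv_mul_cancel, map_one, mul_smul_comm, mul_one]
  let F : N ⧸ Z → N ⧸ Z := Quotient.map' f (by
    intro a b hab
    rw [QuotientGroup.leftRel_apply] at hab ⊢
    exact hrel a b hab)
  have hFinj : Function.Injective F := by
    intro a b
    refine Quotient.inductionOn₂' a b fun a b hab => ?_
    have h1 : (Quotient.mk'' (f a) : N ⧸ Z) = Quotient.mk'' (f b) := hab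
    rw [Quotient.eq'', QuotientGroup.leftRel_apply] at h1
    rw [Quotient.eq'', QuotientGroup.leftRel_apply]
    exact hinj a b h1
  have hFsurj : Function.Surjective F := Finite.injective_iff_surjective.1 hFinj
  have hall : ∀ m' : N, ‖(ρ (x * m')).trace‖ = ‖(ρ x).trace‖ := by
    intro m'
    obtain ⟨q, hq⟩ := hFsurj (Quotient.mk'' m')
    revert hq
    refine Quotient.inductionOn' q fun m hm => ?_
    have h1 : (Quotient.mk'' (f m) : N ⧸ Z) = Quotient.mk'' m' := hm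
    rw [Quotient.eq'', QuotientGroup.leftRel_apply] at h1
    obtain ⟨c, hc⟩ := h1
    have h2 : x * (m' : G) = (m * x * (m : G)⁻¹) * (((f m)⁻¹ * m' : N) : G) := by
      rw [← hf]; simp
    rw [h2, map_mul, hc, mul_smul_comm, mul_one, Matrix.trace_smul, smul_eq_mul, norm_mul,
      scalar_norm ρ hn hc, one_mul, map_mul, Matrix.trace_mul_comm, ← map_mul, ← mul_assoc,
      inv_mul_cancel, one_mul]
  have hsum := sum_norm_sq ρ N hn hirr x
  have h1 : ∀ m : N, (ρ (x * m)).trace * (ρ (x * m)⁻¹).trace = ((‖(ρ x).trace‖ ^ 2 : ℝ) : ℂ) := by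
    intro m
    rw [trace_inv, ← hall m, Complex.mul_conj, Complex.normSq_eq_norm_sq]
  simp only [h1, Finset.sum_const, Finset.card_univ, nsmul_eq_mul] at hsum
  have hc : (Fintype.card N : ℂ) ≠ 0 := by
    exact_mod_cast Fintype.card_ne_zero
  have h2 : ((‖(ρ x).trace‖ ^ 2 : ℝ) : ℂ) = 1 := by
    have := mul_left_cancel₀ hc (hsum.trans (mul_one _).symm)
    exact this
  have h3 : ‖(ρ x).trace‖ ^ 2 = 1 := by exact_mod_cast h2
  exact (pow_eq_one_iff_of_nonneg (norm_nonneg _) two_ne_zero).1 h3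

/-- G4 -/
theorem eig_pow_const (N : Subgroup G) (x : G) (e : ℕ) (hx : x ^ e ∈ N)
    (hfree : ∀ m ∈ N, (∃ c : ℂ, ρ (m * x * m⁻¹) = c • ρ x) →
      ∃ c : ℂ, ρ m = c • (1 : Matrix (Fin n) (Fin n) ℂ)) (hn : 0 < n) :
    ∃ c : ℂ, ‖c‖ = 1 ∧ ∀ a ∈ eig (ρ x), a ^ e = c := by
  obtain ⟨c, hc⟩ := hfree (x ^ e) hx ⟨1, by
    rw [one_smul]
    congr 1
    rw [← pow_succ, pow_succ']
    simp⟩
  refine ⟨c, scalar_norm ρ hn hc, fun a ha => ?_⟩
  obtain ⟨v, hv, h⟩ := eigenvector_of_mem ha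
  have h1 := pow_eigenvector h e
  rw [← map_pow, hc, Matrix.smul_mulVec, Matrix.one_mulVec] at h1
  by_contra hne
  apply hv
  have h3 : (a ^ e - c) • v = 0 := by
    rw [sub_smul, ← h1, sub_self]
  exact (smul_eq_zero.1 h3).resolve_left (sub_ne_zero.2 hne)

end

end Pool.Agent.H13.SR
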